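import Mathlib

namespace Pool.Agent.Results.MP_56b3f5_al.CentralizerFails

open Matrix

/-- Index set of the basis `v_0, ..., v_{2n}` of `[j]^+`, where `n = 2j`. -/
abbrev Idx (n : ℕ) := Fin (2 * n + 1)

/-- Endomorphisms of `[j]^+`. -/
abbrev M1 (n : ℕ) := Matrix (Idx n) (Idx n) ℂ

/-- Endomorphisms of `V_j`, the threefold tensor power of `[j]^+`. -/
abbrev M3 (n : ℕ) := Matrix (Idx n × Idx n × Idx n) (Idx n × Idx n × Idx n) ℂ

/-- The coefficient in `F^+ v_a = coef n a • v_{a-1}`. -/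
noncomputable def coef (n a : ℕ) : ℂ :=
  if a % 2 = 0 then -((a / 2 : ℕ) : ℂ) / 4 else ((n : ℂ) - ((a / 2 : ℕ) : ℂ)) / 4

/-- `R v_a = (-1)^a v_a`. -/
noncomputable def Rm (n : ℕ) : M1 n := Matrix.diagonal fun a => (-1) ^ (a : ℕ)

/-- `H v_a = (j - a/2) v_a`. -/
noncomputable def Hm (n : ℕ) : M1 n := Matrix.diagonal fun a => ((n : ℂ) - ((a : ℕ) : ℂ)) / 2

/-- `F^- v_b = v_{b+1}` (and `F^- v_{2n} = 0`). -/
noncomputable def Fm (n : ℕ) : M1 n :=
  Matrix.of fun a b => if (a : ℕ) = (b : ℕ) + 1 then 1 else 0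

/-- `F^+ v_b = coef n b • v_{b-1}` (and `F^+ v_0 = 0`). -/
noncomputable def Fp (n : ℕ) : M1 n :=
  Matrix.of fun a b => if (b : ℕ) = (a : ℕ) + 1 then coef n b else 0

/-- `E^+ = 4 (F^+)^2`. -/
noncomputable def Ep (n : ℕ) : M1 n := (4 : ℂ) • (Fp n * Fp n)

/-- `E^- = -4 (F^-)^2`. -/
noncomputable def Em (n : ℕ) : M1 n := (-4 : ℂ) • (Fm n * Fm n)

/-- `A ⊗ B ⊗ C` as an endomorphism of `V_j`. -/
noncomputable def T3 {n : ℕ} (A B C : M1 n) : M3 n := Matrix.kronecker A (Matrix.kronecker B C)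

noncomputable def totH (n : ℕ) : M3 n := T3 (Hm n) 1 1 + T3 1 (Hm n) 1 + T3 1 1 (Hm n)
noncomputable def totEp (n : ℕ) : M3 n := T3 (Ep n) 1 1 + T3 1 (Ep n) 1 + T3 1 1 (Ep n)
noncomputable def totEm (n : ℕ) : M3 n := T3 (Em n) 1 1 + T3 1 (Em n) 1 + T3 1 1 (Em n)

/-- The action of `F^+` on `V_j`. -/
noncomputable def totFp (n : ℕ) : M3 n :=
  T3 (Fp n) (Rm n) (Rm n) + T3 1 (Fp n) (Rm n) + T3 1 1 (Fp n)

/-- The action of `F^-` on `V_j`. -/
noncomputable def totFm (n : ℕ) : M3 n :=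
  T3 (Fm n) (Rm n) (Rm n) + T3 1 (Fm n) (Rm n) + T3 1 1 (Fm n)

/-- `C_j`: the endomorphisms of `V_j` commuting with the action of `osp(1|2)`. -/
noncomputable def Cent (n : ℕ) : Subalgebra ℂ (M3 n) :=
  Subalgebra.centralizer ℂ {totH n, totEp n, totEm n, totFp n, totFm n}

/-- `[a, b] s + s / 8`, which is `Q` when `a, b, s` are the images of `F^+, F^-, R`. -/
noncomputable def casQ {A : Type} [Ring A] [Algebra ℂ A] (a b s : A) : A :=
  (a * b - b * a) * s + (1 / 8 : ℂ) • s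

noncomputable def Q1 (n : ℕ) : M3 n := T3 (casQ (Fp n) (Fm n) (Rm n)) 1 1
noncomputable def Q2 (n : ℕ) : M3 n := T3 1 (casQ (Fp n) (Fm n) (Rm n)) 1
noncomputable def Q3 (n : ℕ) : M3 n := T3 1 1 (casQ (Fp n) (Fm n) (Rm n))

noncomputable def Q12 (n : ℕ) : M3 n :=
  casQ (T3 (Fp n) (Rm n) 1 + T3 1 (Fp n) 1) (T3 (Fm n) (Rm n) 1 + T3 1 (Fm n) 1)
    (T3 (Rm n) (Rm n) 1)

noncomputable def Q23 (n : ℕ) : M3 n :=
  casQ (T3 1 (Fp n) (Rm n) + T3 1 1 (Fp n)) (T3 1 (Fm n) (Rm n) + T3 1 1 (Fm n))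
    (T3 1 (Rm n) (Rm n))

noncomputable def Q13 (n : ℕ) : M3 n :=
  casQ (T3 (Fp n) (Rm n) (Rm n) + T3 1 1 (Fp n)) (T3 (Fm n) (Rm n) (Rm n) + T3 1 1 (Fm n))
    (T3 (Rm n) 1 (Rm n))

noncomputable def Q4 (n : ℕ) : M3 n :=
  casQ (totFp n) (totFm n) (T3 (Rm n) (Rm n) (Rm n))

/-- The six generators of `I_3`. -/
inductive Gen
  | X | Y | Z | wX | wY | wZ

/-- The map `(π_j ⊗ π_j ⊗ π_j) ∘ Φ` on generators. -/
noncomputable def img (n : ℕ) : Gen → M3 n
  | .X => (-4 : ℂ) • Q12 n + (1 / 2 : ℂ) • 1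
  | .Y => (-4 : ℂ) • Q23 n + (1 / 2 : ℂ) • 1
  | .Z => (-4 : ℂ) • Q13 n + (1 / 2 : ℂ) • 1
  | .wX => (32 : ℂ) • (Q1 n * Q2 n + Q3 n * Q4 n) - 1
  | .wY => (32 : ℂ) • (Q2 n * Q3 n + Q1 n * Q4 n) - 1
  | .wZ => (32 : ℂ) • (Q1 n * Q3 n + Q2 n * Q4 n) - 1

/-- The free algebra on the generators of `I_3`. -/
abbrev Free := FreeAlgebra ℂ Gen

/-- The generators as elements of the free algebra. -/
noncomputable abbrev gen (g : Gen) : Free := FreeAlgebra.ι ℂ g

/-- The relations of the quotient of `I_3`, with `n = 2j` and with `M` in the place of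
the set `M_j`. -/
inductive Rel (n : ℕ) (M : Finset ℂ) : Free → Free → Prop
  | central (w g : Gen) (hw : w = .wX ∨ w = .wY ∨ w = .wZ) :
      Rel n M (gen w * gen g) (gen g * gen w)
  | xy : Rel n M (gen .X * gen .Y + gen .Y * gen .X) (gen .X + gen .Y + gen .Z + gen .wZ)
  | xz : Rel n M (gen .X * gen .Z + gen .Z * gen .X) (gen .X + gen .Y + gen .Z + gen .wY)
  | yz : Rel n M (gen .Y * gen .Z + gen .Z * gen .Y) (gen .X + gen .Y + gen .Z + gen .wX)
  | omXY : Rel n M (gen .wX) (gen .wY)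
  | omYZ : Rel n M (gen .wY) (gen .wZ)
  | first (W : Gen) (hW : W = .X ∨ W = .Y ∨ W = .Z) :
      Rel n M (Polynomial.aeval (gen W) (∏ i ∈ Finset.range (2 * n + 1),
        (Polynomial.X - Polynomial.C (2 * (-(n : ℂ) + i))))) 0
  | second :
      Rel n M (Polynomial.aeval (gen .wX) (∏ i ∈ Finset.range (3 * n + 1),
        (Polynomial.X - Polynomial.C
          ((2 * (n : ℂ) + 1) * ((n : ℂ) + 1 - 2 * (-(3 * (n : ℂ) / 2) + i)) - 1)))) 0
  | third (W : Gen) (hW : W = .X ∨ W = .Y ∨ W = .Z) :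
      Rel n M (Polynomial.aeval (gen W - gen .wX) (∏ m ∈ M,
        (Polynomial.X - Polynomial.C m))) 0

/-- The quotient of `I_3`. -/
abbrev Ibar (n : ℕ) (M : Finset ℂ) := RingQuot (Rel n M)

/-- `(π_j ⊗ π_j ⊗ π_j) ∘ Φ` kills the relations and induces an isomorphism onto `C_j`. -/
def Iso (n : ℕ) (M : Finset ℂ) : Prop :=
  ∃ Ψ : Ibar n M →ₐ[ℂ] M3 n,
    (∀ g, Ψ (RingQuot.mkAlgHom ℂ (Rel n M) (gen g)) = img n g) ∧
    Function.Injective Ψ ∧ Ψ.range = Cent n

/-! ### The Casimir identity -/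

lemma casimir_ring {A : Type} [Ring A] (a b c U V W : A)
    (ha : a * a = 1) (hb : b * b = 1) (hc : c * c = 1)
    (hU : c * U = U * c) (hV : a * V = V * a) (hW : b * W = W * b)
    (hUV : 8 * (U * V + V * U) = -((15 * b - 1) * W))
    (hUW : 8 * (U * W + W * U) = -((15 * a - 1) * V))
    (hVW : 8 * (V * W + W * V) = -((15 * c - 1) * U)) :
    (15 * a + 15 * b - 1 + 16 * U) * (15 * a + 15 * b - 1 + 16 * U)
      + (15 * b + 15 * c - 1 + 16 * V) * (15 * b + 15 * c - 1 + 16 * V)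
      + (15 * a + 15 * c - 1 + 16 * W) * (15 * a + 15 * c - 1 + 16 * W)
    = 674 + (15 * a + 15 * b + 15 * c - 2 + 16 * U + 16 * V + 16 * W)
      * (15 * a + 15 * b + 15 * c - 2 + 16 * U + 16 * V + 16 * W) := by
  linear_combination (norm := (noncomm_ring; norm_num)) 225 * ha + 225 * hb + 225 * hc
    - 32 * hUV - 32 * hUW - 32 * hVW + 240 * hU + 240 * hV + 240 * hW

/-- Three pairwise anticommuting copies of the odd generators. -/
structure Triple {A : Type} [Ring A] (f g r : Fin 3 → A) : Prop where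
  ff : ∀ i k, i ≠ k → f i * f k + f k * f i = 0
  gg : ∀ i k, i ≠ k → g i * g k + g k * g i = 0
  fg : ∀ i k, i ≠ k → f i * g k + g k * f i = 0
  rr : ∀ i, r i * r i = 1
  rc : ∀ i k, r i * r k - r k * r i = 0
  rf : ∀ i, r i * f i + f i * r i = 0
  rg : ∀ i, r i * g i + g i * r i = 0
  rf' : ∀ i k, i ≠ k → r i * f k - f k * r i = 0
  rg' : ∀ i k, i ≠ k → r i * g k - g k * r i = 0
  D : ∀ i, 8 * (f i * g i - g i * f i) = 15 * r i - 1

variable {A : Type} [Ring A] {f g r : Fin 3 → A}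

lemma Triple.anti (h : Triple f g r) (i k : Fin 3) (hik : i ≠ k) :
    r i * (f i * g k + f k * g i) + (f i * g k + f k * g i) * r i = 0 := by
  linear_combination (norm := noncomm_ring) h.rf i * g k - f i * h.rg' i k hik
    + h.rf' i k hik * g i + f k * h.rg i

lemma Triple.comm (h : Triple f g r) (i k l : Fin 3) (hi : l ≠ i) (hk : l ≠ k) :
    r l * (f i * g k + f k * g i) - (f i * g k + f k * g i) * r l = 0 := by
  linear_combination (norm := noncomm_ring) h.rf' l i hi * g k + f i * h.rg' l k hk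
    + h.rf' l k hk * g i + f k * h.rg' l i hi

lemma Triple.cross (h : Triple f g r) (i b k : Fin 3) (hib : i ≠ b) (hbk : b ≠ k)
    (hik : i ≠ k) :
    8 * ((f i * g b + f b * g i) * (f b * g k + f k * g b)
      + (f b * g k + f k * g b) * (f i * g b + f b * g i))
    = -((15 * r b - 1) * (f i * g k + f k * g i)) := by
  have h1 : f i * g b * (f b * g k) + f b * g k * (f i * g b)
      = f i * (g b * f b - f b * g b) * g k := by
    linear_combination (norm := noncomm_ring) f b * h.fg i k hik * g b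
      - h.ff b i hib.symm * g k * g b + f i * f b * h.gg k b hbk.symm
  have h2 : f b * g i * (f k * g b) + f k * g b * (f b * g i)
      = f k * (g b * f b - f b * g b) * g i := by
    linear_combination (norm := noncomm_ring) f b * h.fg k i hik.symm * g b
      - h.ff b k hbk * g i * g b + f k * f b * h.gg i b hib
  have h3 : f i * g b * (f k * g b) + f k * g b * (f i * g b) = 0 := by
    linear_combination (norm := noncomm_ring) f i * h.fg k b hbk.symm * g b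
      + f k * h.fg i b hib * g b - h.ff i k hik * g b * g b
  have h4 : f b * g i * (f b * g k) + f b * g k * (f b * g i) = 0 := by
    linear_combination (norm := noncomm_ring) f b * h.fg b i hib.symm * g k
      + f b * h.fg b k hbk * g i - f b * f b * h.gg i k hik
  have h5 : 8 * (f i * (g b * f b - f b * g b) * g k) = -((15 * r b - 1) * (f i * g k)) := by
    linear_combination (norm := noncomm_ring) - f i * h.D b * g k
      + 15 * h.rf' b i hib.symm * g k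
  have h6 : 8 * (f k * (g b * f b - f b * g b) * g i) = -((15 * r b - 1) * (f k * g i)) := by
    linear_combination (norm := noncomm_ring) - f k * h.D b * g i
      + 15 * h.rf' b k hbk * g i
  linear_combination (norm := noncomm_ring) 8 * h1 + 8 * h2 + 8 * h3 + 8 * h4 + h5 + h6

lemma Triple.pair (h : Triple f g r) (i k : Fin 3) (hik : i ≠ k) :
    8 * ((f i + f k) * (g i + g k) - (g i + g k) * (f i + f k)) + 1
      = 15 * r i + 15 * r k - 1 + 16 * (f i * g k + f k * g i) := by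
  linear_combination (norm := (noncomm_ring; try norm_num)) h.D i + h.D k - 8 * h.fg i k hik
    - 8 * h.fg k i hik.symm

lemma Triple.all (h : Triple f g r) :
    8 * ((f 0 + f 1 + f 2) * (g 0 + g 1 + g 2) - (g 0 + g 1 + g 2) * (f 0 + f 1 + f 2)) + 1
      = 15 * r 0 + 15 * r 1 + 15 * r 2 - 2 + 16 * (f 0 * g 1 + f 1 * g 0)
        + 16 * (f 1 * g 2 + f 2 * g 1) + 16 * (f 0 * g 2 + f 2 * g 0) := by
  linear_combination (norm := (noncomm_ring; try norm_num)) h.D 0 + h.D 1 + h.D 2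
    - 8 * h.fg 0 1 (by decide) - 8 * h.fg 1 0 (by decide)
    - 8 * h.fg 0 2 (by decide) - 8 * h.fg 2 0 (by decide)
    - 8 * h.fg 1 2 (by decide) - 8 * h.fg 2 1 (by decide)

/-- The square of `S * s` when `s` is an involution commuting with `S`. -/
lemma sq_invol (S s : A) (hs : s * s = 1) (hc : s * S - S * s = 0) :
    S * s * (S * s) = S * S := by
  linear_combination (norm := noncomm_ring) S * hc * s + S * S * hs

lemma Triple.casimir (h : Triple f g r) :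
    (8 * ((f 0 + f 1) * (g 0 + g 1) - (g 0 + g 1) * (f 0 + f 1)) + 1)
      * (8 * ((f 0 + f 1) * (g 0 + g 1) - (g 0 + g 1) * (f 0 + f 1)) + 1)
    + (8 * ((f 1 + f 2) * (g 1 + g 2) - (g 1 + g 2) * (f 1 + f 2)) + 1)
      * (8 * ((f 1 + f 2) * (g 1 + g 2) - (g 1 + g 2) * (f 1 + f 2)) + 1)
    + (8 * ((f 0 + f 2) * (g 0 + g 2) - (g 0 + g 2) * (f 0 + f 2)) + 1)
      * (8 * ((f 0 + f 2) * (g 0 + g 2) - (g 0 + g 2) * (f 0 + f 2)) + 1)
    = 674 + (8 * ((f 0 + f 1 + f 2) * (g 0 + g 1 + g 2)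
        - (g 0 + g 1 + g 2) * (f 0 + f 1 + f 2)) + 1)
      * (8 * ((f 0 + f 1 + f 2) * (g 0 + g 1 + g 2)
        - (g 0 + g 1 + g 2) * (f 0 + f 1 + f 2)) + 1) := by
  rw [h.all, h.pair 0 1 (by decide), h.pair 1 2 (by decide), h.pair 0 2 (by decide)]
  refine casimir_ring (r 0) (r 1) (r 2) _ _ _ (h.rr 0) (h.rr 1) (h.rr 2)
    (sub_eq_zero.1 (h.comm 0 1 2 (by decide) (by decide)))
    (sub_eq_zero.1 (h.comm 1 2 0 (by decide) (by decide)))
    (sub_eq_zero.1 (h.comm 0 2 1 (by decide) (by decide)))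
    (h.cross 0 1 2 (by decide) (by decide) (by decide)) ?_ ?_
  · have := h.cross 1 0 2 (by decide) (by decide) (by decide)
    linear_combination (norm := noncomm_ring) this
  · have := h.cross 1 2 0 (by decide) (by decide) (by decide)
    linear_combination (norm := noncomm_ring) this

lemma Triple.pair_comm (h : Triple f g r) (i k : Fin 3) (hik : i ≠ k) :
    (r i * r k) * (8 * ((f i + f k) * (g i + g k) - (g i + g k) * (f i + f k)) + 1)
      - (8 * ((f i + f k) * (g i + g k) - (g i + g k) * (f i + f k)) + 1) * (r i * r k) = 0 := by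
  rw [h.pair i k hik]
  have h1 := h.anti i k hik
  have h2 := h.anti k i hik.symm
  linear_combination (norm := noncomm_ring) 16 * r i * h2 - 16 * h1 * r k
    - 15 * r i * h.rc i k + 15 * h.rc i k * r k

lemma Triple.all_comm (h : Triple f g r) :
    (r 0 * r 1 * r 2) * (8 * ((f 0 + f 1 + f 2) * (g 0 + g 1 + g 2)
        - (g 0 + g 1 + g 2) * (f 0 + f 1 + f 2)) + 1)
      - (8 * ((f 0 + f 1 + f 2) * (g 0 + g 1 + g 2)
        - (g 0 + g 1 + g 2) * (f 0 + f 1 + f 2)) + 1) * (r 0 * r 1 * r 2) = 0 := by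
  rw [h.all]
  have a01 := h.anti 0 1 (by decide)
  have a10 := h.anti 1 0 (by decide)
  have a12 := h.anti 1 2 (by decide)
  have a21 := h.anti 2 1 (by decide)
  have a02 := h.anti 0 2 (by decide)
  have a20 := h.anti 2 0 (by decide)
  have c2 := h.comm 0 1 2 (by decide) (by decide)
  have c0 := h.comm 1 2 0 (by decide) (by decide)
  have c1 := h.comm 0 2 1 (by decide) (by decide)
  have e0 : r 0 * r 1 * r 2 * r 0 = r 0 * (r 0 * r 1 * r 2) := by
    linear_combination (norm := noncomm_ring) - r 0 * h.rc 0 1 * r 2 - r 0 * r 1 * h.rc 0 2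
  have e1 : r 0 * r 1 * r 2 * r 1 = r 1 * (r 0 * r 1 * r 2) := by
    linear_combination (norm := noncomm_ring) - r 0 * r 1 * h.rc 1 2 + h.rc 0 1 * r 1 * r 2
  have e2 : r 0 * r 1 * r 2 * r 2 = r 2 * (r 0 * r 1 * r 2) := by
    linear_combination (norm := noncomm_ring) h.rc 0 2 * r 1 * r 2 + r 0 * h.rc 1 2 * r 2
  linear_combination (norm := noncomm_ring) 15 * e0 + 15 * e1 + 15 * e2
    + 16 * r 0 * r 1 * c2 + 16 * r 0 * a10 * r 2 - 16 * a01 * r 1 * r 2
    + 16 * r 0 * r 1 * a21 - 16 * r 0 * a12 * r 2 + 16 * c0 * r 1 * r 2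
    + 16 * r 0 * r 1 * a20 - 16 * r 0 * c1 * r 2 - 16 * a02 * r 1 * r 2

lemma Triple.all_sq (h : Triple f g r) : (r 0 * r 1 * r 2) * (r 0 * r 1 * r 2) = 1 := by
  have e2 : r 0 * r 1 * r 2 * r 2 = r 2 * (r 0 * r 1 * r 2) := by
    linear_combination (norm := noncomm_ring) h.rc 0 2 * r 1 * r 2 + r 0 * h.rc 1 2 * r 2
  have h0 := h.rr 0
  have h1 := h.rr 1
  have h2 := h.rr 2
  linear_combination (norm := noncomm_ring) - r 0 * r 1 * h.rc 0 2 * r 1 * r 2
    - r 0 * h.rc 0 1 * r 2 * r 1 * r 2 + h0 * r 1 * r 2 * r 1 * r 2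
    - r 1 * h.rc 1 2 * r 2 + h1 * r 2 * r 2 + h2

lemma Triple.pair_sq (h : Triple f g r) (i k : Fin 3) :
    (r i * r k) * (r i * r k) = 1 := by
  have h0 := h.rr i
  have h1 := h.rr k
  linear_combination (norm := noncomm_ring) - r i * h.rc i k * r k + h0 * r k * r k + h1

/-! ### The matrices of `[j]^+` -/

lemma coef_zero (n : ℕ) : coef n 0 = 0 := by simp [coef]

lemma coef_last (n : ℕ) : coef n (2 * n + 1) = 0 := by
  have h1 : (2 * n + 1) % 2 = 1 := by omega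
  have h2 : (2 * n + 1) / 2 = n := by omega
  simp [coef, h1, h2]

lemma FpFm (n : ℕ) : Fp n * Fm n = Matrix.diagonal fun a : Idx n => coef n ((a : ℕ) + 1) := by
  ext a b
  rw [Matrix.mul_apply, Matrix.diagonal_apply]
  simp only [Fp, Fm, Matrix.of_apply]
  by_cases ha : (a : ℕ) + 1 < 2 * n + 1
  · rw [Finset.sum_eq_single (⟨(a : ℕ) + 1, ha⟩ : Idx n)]
    · by_cases hab : a = b
      · subst hab; simp
      · have : ¬ ((a : ℕ) = (b : ℕ)) := fun h => hab (Fin.ext h)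
        simp [hab, this]
    · intro c _ hc
      have : ¬ ((c : ℕ) = (a : ℕ) + 1) := fun h => hc (Fin.ext h)
      simp [this]
    · simp
  · have ha' : (a : ℕ) + 1 = 2 * n + 1 := by omega
    rw [ha', coef_last]
    rw [Finset.sum_eq_zero]
    · simp
    · intro c _
      have : ¬ ((c : ℕ) = 2 * n + 1) := by have := c.2; omega
      simp [this]

lemma FmFp (n : ℕ) : Fm n * Fp n = Matrix.diagonal fun a : Idx n => coef n (a : ℕ) := by
  ext a b
  rw [Matrix.mul_apply, Matrix.diagonal_apply]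
  simp only [Fp, Fm, Matrix.of_apply]
  by_cases ha : (a : ℕ) = 0
  · rw [Finset.sum_eq_zero]
    · rw [ha, coef_zero]; simp
    · intro c _
      have : ¬ ((a : ℕ) = (c : ℕ) + 1) := by omega
      simp [this]
  · have hlt : (a : ℕ) - 1 < 2 * n + 1 := by have := a.2; omega
    rw [Finset.sum_eq_single (⟨(a : ℕ) - 1, hlt⟩ : Idx n)]
    · have h1 : (a : ℕ) = (a : ℕ) - 1 + 1 := by omega
      by_cases hab : a = b
      · subst hab; simp [← h1]
      · have : ¬ ((b : ℕ) = (a : ℕ) - 1 + 1) := by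
          intro h; exact hab (Fin.ext (by omega))
        simp [hab, this]
    · intro c _ hc
      have : ¬ ((a : ℕ) = (c : ℕ) + 1) := fun h => hc (Fin.ext (by simp; omega))
      simp [this]
    · simp

lemma coef_add (n a : ℕ) : coef n (a + 1) + coef n a = ((n : ℂ) - (a : ℂ)) / 4 := by
  rcases Nat.even_or_odd' a with ⟨i, hi | hi⟩
  · have h1 : a % 2 = 0 := by omega
    have h2 : (a + 1) % 2 = 1 := by omega
    have h3 : a / 2 = i := by omega
    have h4 : (a + 1) / 2 = i := by omega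
    simp only [coef, h1, h2, h3, h4]
    rw [hi]; push_cast; first | (simp; ring) | ring
  · have h1 : a % 2 = 1 := by omega
    have h2 : (a + 1) % 2 = 0 := by omega
    have h3 : a / 2 = i := by omega
    have h4 : (a + 1) / 2 = i + 1 := by omega
    simp only [coef, h1, h2, h3, h4]
    rw [hi]; push_cast; first | (simp; ring) | ring

lemma coef_sub (n a : ℕ) :
    8 * (coef n (a + 1) - coef n a) = (2 * (n : ℂ) + 1) * (-1) ^ a - 1 := by
  rcases Nat.even_or_odd' a with ⟨i, hi | hi⟩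
  · have h1 : a % 2 = 0 := by omega
    have h2 : (a + 1) % 2 = 1 := by omega
    have h3 : a / 2 = i := by omega
    have h4 : (a + 1) / 2 = i := by omega
    simp only [coef, h1, h2, h3, h4]
    rw [hi]; simp; ring
  · have h1 : a % 2 = 1 := by omega
    have h2 : (a + 1) % 2 = 0 := by omega
    have h3 : a / 2 = i := by omega
    have h4 : (a + 1) / 2 = i + 1 := by omega
    simp only [coef, h1, h2, h3, h4]
    rw [hi]; simp [pow_succ]; ring

/-- `R^2 = 1`. -/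
lemma RR (n : ℕ) : Rm n * Rm n = 1 := by
  rw [Rm, Matrix.diagonal_mul_diagonal, ← Matrix.diagonal_one]
  congr 1
  funext a
  rw [← mul_pow]; simp

/-- `{F^+, F^-} = H / 2`. -/
lemma FF_anti (n : ℕ) : Fp n * Fm n + Fm n * Fp n = (1 / 2 : ℂ) • Hm n := by
  rw [FpFm, FmFp, Matrix.diagonal_add, Hm, ← Matrix.diagonal_smul]
  congr 1
  funext a
  rw [coef_add]
  simp only [Pi.smul_apply, smul_eq_mul]; ring

/-- `[F^+, F^-] = ((4j+1) R - 1) / 8`, so that `Q = (4j+1)/8` on `[j]^+`. -/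
lemma FF_comm (n : ℕ) :
    (8 : ℂ) • (Fp n * Fm n - Fm n * Fp n) = (2 * (n : ℂ) + 1) • Rm n - 1 := by
  rw [FpFm, FmFp, Matrix.diagonal_sub, Rm, ← Matrix.diagonal_smul, ← Matrix.diagonal_smul,
    ← Matrix.diagonal_one, Matrix.diagonal_sub]
  congr 1
  funext a
  simp only [Pi.smul_apply, smul_eq_mul]
  exact coef_sub n a

/-- `R` anticommutes with `F^+`. -/
lemma RFp (n : ℕ) : Rm n * Fp n = -(Fp n * Rm n) := by
  ext a b
  rw [Rm, Matrix.diagonal_mul, Matrix.neg_apply, Matrix.mul_diagonal]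
  simp only [Fp, Matrix.of_apply]
  split_ifs with h
  · rw [h, pow_succ]; ring
  · simp

/-- `R` anticommutes with `F^-`. -/
lemma RFm (n : ℕ) : Rm n * Fm n = -(Fm n * Rm n) := by
  ext a b
  rw [Rm, Matrix.diagonal_mul, Matrix.neg_apply, Matrix.mul_diagonal]
  simp only [Fm, Matrix.of_apply]
  split_ifs with h
  · rw [h, pow_succ]; ring
  · simp

/-- `[H, F^+] = F^+ / 2`. -/
lemma HFp (n : ℕ) : Hm n * Fp n - Fp n * Hm n = (1 / 2 : ℂ) • Fp n := by
  ext a b
  rw [Hm, Matrix.sub_apply, Matrix.diagonal_mul, Matrix.mul_diagonal, Matrix.smul_apply]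
  simp only [Fp, Matrix.of_apply, smul_eq_mul]
  split_ifs with h
  · rw [h]; push_cast; ring
  · simp

/-- `[H, F^-] = -F^- / 2`. -/
lemma HFm (n : ℕ) : Hm n * Fm n - Fm n * Hm n = (-1 / 2 : ℂ) • Fm n := by
  ext a b
  rw [Hm, Matrix.sub_apply, Matrix.diagonal_mul, Matrix.mul_diagonal, Matrix.smul_apply]
  simp only [Fm, Matrix.of_apply, smul_eq_mul]
  split_ifs with h
  · rw [h]; push_cast; ring
  · simp

/-! ### Triple tensor products -/

section T3
variable {n : ℕ}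

lemma T3_mul (A B C A' B' C' : M1 n) :
    T3 A B C * T3 A' B' C' = T3 (A * A') (B * B') (C * C') := by
  simp only [T3, Matrix.kronecker]
  rw [Matrix.mul_kronecker_mul, Matrix.mul_kronecker_mul]

lemma T3_one : T3 (1 : M1 n) 1 1 = 1 := by
  simp only [T3, Matrix.kronecker]
  rw [Matrix.one_kronecker_one, Matrix.one_kronecker_one]

lemma T3_apply (A B C : M1 n) (x y : Idx n × Idx n × Idx n) :
    T3 A B C x y = A x.1 y.1 * (B x.2.1 y.2.1 * C x.2.2 y.2.2) := rfl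

lemma T3_neg1 (A B C : M1 n) : T3 (-A) B C = -T3 A B C := by
  ext x y; simp [T3_apply]

lemma T3_neg2 (A B C : M1 n) : T3 A (-B) C = -T3 A B C := by
  ext x y; simp [T3_apply]

lemma T3_neg3 (A B C : M1 n) : T3 A B (-C) = -T3 A B C := by
  ext x y; simp [T3_apply]

lemma T3_sub1 (A A' B C : M1 n) : T3 (A - A') B C = T3 A B C - T3 A' B C := by
  ext x y; simp [T3_apply]; ring

lemma T3_sub2 (A B B' C : M1 n) : T3 A (B - B') C = T3 A B C - T3 A B' C := by
  ext x y; simp [T3_apply]; ring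

lemma T3_sub3 (A B C C' : M1 n) : T3 A B (C - C') = T3 A B C - T3 A B C' := by
  ext x y; simp [T3_apply]; ring

lemma T3_smul1 (s : ℂ) (A B C : M1 n) : T3 (s • A) B C = s • T3 A B C := by
  ext x y; simp [T3_apply]; ring

lemma T3_smul2 (s : ℂ) (A B C : M1 n) : T3 A (s • B) C = s • T3 A B C := by
  ext x y; simp [T3_apply]; ring

lemma T3_smul3 (s : ℂ) (A B C : M1 n) : T3 A B (s • C) = s • T3 A B C := by
  ext x y; simp [T3_apply]; ring

end T3

/-- The three anticommuting copies of `F^+`. -/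
noncomputable def fT (n : ℕ) : Fin 3 → M3 n
  | 0 => T3 (Fp n) (Rm n) (Rm n)
  | 1 => T3 1 (Fp n) (Rm n)
  | 2 => T3 1 1 (Fp n)

/-- The three anticommuting copies of `F^-`. -/
noncomputable def gT (n : ℕ) : Fin 3 → M3 n
  | 0 => T3 (Fm n) (Rm n) (Rm n)
  | 1 => T3 1 (Fm n) (Rm n)
  | 2 => T3 1 1 (Fm n)

/-- The three copies of `R`. -/
noncomputable def rT (n : ℕ) : Fin 3 → M3 n
  | 0 => T3 (Rm n) 1 1
  | 1 => T3 1 (Rm n) 1
  | 2 => T3 1 1 (Rm n)

lemma FF_comm7 : (8 : ℂ) • (Fp 7 * Fm 7 - Fm 7 * Fp 7) = (15 : ℂ) • Rm 7 - 1 := by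
  rw [FF_comm]; norm_num

lemma triple : Triple (fT 7) (gT 7) (rT 7) := by
  have h1 := RR 7
  have h2 := RFp 7
  have h3 := RFm 7
  constructor
  · intro i k hik
    fin_cases i <;> fin_cases k <;>
      simp_all [fT, gT, rT, T3_mul, T3_neg1, T3_neg2, T3_neg3]
  · intro i k hik
    fin_cases i <;> fin_cases k <;>
      simp_all [fT, gT, rT, T3_mul, T3_neg1, T3_neg2, T3_neg3]
  · intro i k hik
    fin_cases i <;> fin_cases k <;>
      simp_all [fT, gT, rT, T3_mul, T3_neg1, T3_neg2, T3_neg3]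
  · intro i
    fin_cases i <;> simp [rT, T3_mul, h1, T3_one]
  · intro i k
    fin_cases i <;> fin_cases k <;> simp [rT, T3_mul]
  · intro i
    fin_cases i <;> simp [fT, rT, T3_mul, h2, T3_neg1, T3_neg2, T3_neg3]
  · intro i
    fin_cases i <;> simp [gT, rT, T3_mul, h3, T3_neg1, T3_neg2, T3_neg3]
  · intro i k hik
    fin_cases i <;> fin_cases k <;>
      first | exact absurd rfl hik | simp [fT, rT, T3_mul]
  · intro i k hik
    fin_cases i <;> fin_cases k <;>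
      first | exact absurd rfl hik | simp [gT, rT, T3_mul]
  · intro i
    have h8 : ∀ x : M3 7, 8 * x = (8 : ℂ) • x := by
      intro x; rw [Algebra.smul_def, map_ofNat]
    have h15 : ∀ x : M3 7, 15 * x = (15 : ℂ) • x := by
      intro x; rw [Algebra.smul_def, map_ofNat]
    rw [h8, h15]
    fin_cases i
    · simp only [fT, gT, rT, T3_mul, h1, mul_one]
      rw [← T3_sub1, ← T3_smul1, FF_comm7, T3_sub1, T3_smul1, T3_one]
    · simp only [fT, gT, rT, T3_mul, h1, mul_one]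
      rw [← T3_sub2, ← T3_smul2, FF_comm7, T3_sub2, T3_smul2, T3_one]
    · simp only [fT, gT, rT, T3_mul, h1, mul_one]
      rw [← T3_sub3, ← T3_smul3, FF_comm7, T3_sub3, T3_smul3, T3_one]

/-! ### The intermediate Casimir elements -/

lemma casQ8 {A : Type} [Ring A] [Algebra ℂ A] (a b s : A) :
    (8 : ℂ) • casQ a b s = (8 * (a * b - b * a) + 1) * s := by
  have h8 : ∀ x : A, 8 * x = (8 : ℂ) • x := by
    intro x; rw [Algebra.smul_def, map_ofNat]
  rw [casQ, h8, smul_add, add_mul, one_mul, smul_mul_assoc, smul_smul]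
  norm_num

lemma casQ_one : casQ (Fp 7) (Fm 7) (Rm 7) = (15 / 8 : ℂ) • (1 : M1 7) := by
  have h := FF_comm7
  have h2 : Fp 7 * Fm 7 - Fm 7 * Fp 7 = (15 / 8 : ℂ) • Rm 7 - (1 / 8 : ℂ) • 1 := by
    have := congrArg (fun x => (1 / 8 : ℂ) • x) h
    simp only [smul_smul, smul_sub] at this
    norm_num at this
    exact this
  rw [casQ, h2, sub_mul, smul_mul_assoc, smul_mul_assoc, RR, one_mul]
  abel

lemma Q1_eq : Q1 7 = (15 / 8 : ℂ) • (1 : M3 7) := by
  rw [Q1, casQ_one, T3_smul1, T3_one]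

lemma Q2_eq : Q2 7 = (15 / 8 : ℂ) • (1 : M3 7) := by
  rw [Q2, casQ_one, T3_smul2, T3_one]

lemma Q3_eq : Q3 7 = (15 / 8 : ℂ) • (1 : M3 7) := by
  rw [Q3, casQ_one, T3_smul3, T3_one]

lemma om_eq (g : Gen) (hg : g = .wX ∨ g = .wY ∨ g = .wZ) :
    img 7 g = (60 : ℂ) • Q4 7 + (223 / 2 : ℂ) • 1 := by
  have key : ∀ q : M3 7, (32 : ℂ) • ((15 / 8 : ℂ) • (1 : M3 7) * (15 / 8 : ℂ) • (1 : M3 7)
      + (15 / 8 : ℂ) • (1 : M3 7) * q) - 1 = (60 : ℂ) • q + (223 / 2 : ℂ) • 1 := by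
    intro q
    rw [smul_mul_assoc, smul_mul_assoc, one_mul, one_mul, smul_add, smul_smul, smul_smul,
      smul_smul]
    have : (1 : M3 7) = (1 : ℂ) • 1 := (one_smul ℂ _).symm
    calc _ = ((32 * (15 / 8 * (15 / 8)) : ℂ) • (1 : M3 7) + (32 * (15 / 8) : ℂ) • q)
        - (1 : ℂ) • 1 := by rw [one_smul]; simp [mul_assoc]
      _ = (32 * (15 / 8) : ℂ) • q + (32 * (15 / 8 * (15 / 8)) - 1 : ℂ) • (1 : M3 7) := by
          rw [sub_smul]; abel
      _ = _ := by norm_num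
  rcases hg with h | h | h <;> subst h <;> simp only [img, Q1_eq, Q2_eq, Q3_eq] <;>
    exact key _

lemma pairA (h : Triple (fT 7) (gT 7) (rT 7)) :
    (8 : ℂ) • Q12 7 = (8 * ((fT 7 0 + fT 7 1) * (gT 7 0 + gT 7 1)
      - (gT 7 0 + gT 7 1) * (fT 7 0 + fT 7 1)) + 1) * (rT 7 0 * rT 7 1) := by
  have hf : T3 (Fp 7) (Rm 7) 1 + T3 1 (Fp 7) 1 = (fT 7 0 + fT 7 1) * rT 7 2 := by
    simp only [fT, rT, add_mul, T3_mul, mul_one, RR]
  have hg : T3 (Fm 7) (Rm 7) 1 + T3 1 (Fm 7) 1 = (gT 7 0 + gT 7 1) * rT 7 2 := by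
    simp only [gT, rT, add_mul, T3_mul, mul_one, RR]
  have hr : T3 (Rm 7) (Rm 7) 1 = rT 7 0 * rT 7 1 := by
    simp only [rT, T3_mul, mul_one, one_mul]
  have h0 := h.rf' 2 0 (by decide)
  have h1 := h.rf' 2 1 (by decide)
  have h2 := h.rg' 2 0 (by decide)
  have h3 := h.rg' 2 1 (by decide)
  have h4 := h.rr 2
  rw [Q12, casQ8, hf, hg, hr]
  congr 2
  congr 1
  linear_combination (norm := noncomm_ring) (fT 7 0 + fT 7 1) * h2 * rT 7 2
    + (fT 7 0 + fT 7 1) * h3 * rT 7 2 - (gT 7 0 + gT 7 1) * h0 * rT 7 2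
    - (gT 7 0 + gT 7 1) * h1 * rT 7 2 + (fT 7 0 + fT 7 1) * (gT 7 0 + gT 7 1) * h4
    - (gT 7 0 + gT 7 1) * (fT 7 0 + fT 7 1) * h4

lemma pairB :
    (8 : ℂ) • Q23 7 = (8 * ((fT 7 1 + fT 7 2) * (gT 7 1 + gT 7 2)
      - (gT 7 1 + gT 7 2) * (fT 7 1 + fT 7 2)) + 1) * (rT 7 1 * rT 7 2) := by
  rw [Q23, casQ8]
  simp only [fT, gT, rT, T3_mul, mul_one, one_mul]

lemma pairC :
    (8 : ℂ) • Q13 7 = (8 * ((fT 7 0 + fT 7 2) * (gT 7 0 + gT 7 2)
      - (gT 7 0 + gT 7 2) * (fT 7 0 + fT 7 2)) + 1) * (rT 7 0 * rT 7 2) := by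
  rw [Q13, casQ8]
  simp only [fT, gT, rT, T3_mul, mul_one, one_mul]

lemma allQ :
    (8 : ℂ) • Q4 7 = (8 * ((fT 7 0 + fT 7 1 + fT 7 2) * (gT 7 0 + gT 7 1 + gT 7 2)
      - (gT 7 0 + gT 7 1 + gT 7 2) * (fT 7 0 + fT 7 1 + fT 7 2)) + 1)
      * (rT 7 0 * rT 7 1 * rT 7 2) := by
  rw [Q4, casQ8]
  simp only [totFp, totFm, fT, gT, rT, T3_mul, mul_one, one_mul]

/-- The Casimir identity in `C_j`, `j = 7/2`. -/
lemma casimir7 : ((8 : ℂ) • Q12 7) * ((8 : ℂ) • Q12 7) + ((8 : ℂ) • Q23 7) * ((8 : ℂ) • Q23 7)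
      + ((8 : ℂ) • Q13 7) * ((8 : ℂ) • Q13 7)
    = 674 + ((8 : ℂ) • Q4 7) * ((8 : ℂ) • Q4 7) := by
  have h := triple
  rw [pairA h, pairB, pairC, allQ,
    sq_invol _ _ (h.pair_sq 0 1) (h.pair_comm 0 1 (by decide)),
    sq_invol _ _ (h.pair_sq 1 2) (h.pair_comm 1 2 (by decide)),
    sq_invol _ _ (h.pair_sq 0 2) (h.pair_comm 0 2 (by decide)),
    sq_invol _ _ h.all_sq h.all_comm]
  exact h.casimir

/-! ### The eigenvalue `-16` of `X - ω` -/

def sgZ (a : Idx 7) : ℤ := (-1) ^ (a : ℕ)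
def cZ (a : Idx 7) : ℤ :=
  if ((a : ℕ) + 1) % 2 = 0 then -((((a : ℕ) + 1) / 2 : ℕ) : ℤ)
  else 7 - ((((a : ℕ) + 1) / 2 : ℕ) : ℤ)
def eZ (a : Idx 7) : ℤ := if a = 0 then 0 else 1

abbrev VZ := Idx 7 → Idx 7 → Idx 7 → ℤ

def FZ : Fin 3 → VZ → VZ
  | 0, u, a, b, c => cZ a * (sgZ b * sgZ c) * u (a + 1) b c
  | 1, u, a, b, c => cZ b * sgZ c * u a (b + 1) c
  | 2, u, a, b, c => cZ c * u a b (c + 1)

def GZ : Fin 3 → VZ → VZ
  | 0, u, a, b, c => eZ a * (sgZ b * sgZ c) * u (a - 1) b c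
  | 1, u, a, b, c => eZ b * sgZ c * u a (b - 1) c
  | 2, u, a, b, c => eZ c * u a b (c - 1)

def RZ : Fin 3 → VZ → VZ
  | 0, u, a, b, c => sgZ a * u a b c
  | 1, u, a, b, c => sgZ b * u a b c
  | 2, u, a, b, c => sgZ c * u a b c

/-- The vector of `V_j` with given integer coordinates. -/
noncomputable def cs (u : VZ) : Idx 7 × Idx 7 × Idx 7 → ℂ := fun x => (u x.1 x.2.1 x.2.2 : ℂ)

/-- Matrices with at most one nonzero entry in each row. -/
def Mono (A : M1 7) (α : Idx 7 → ℂ) (τ : Idx 7 → Idx 7) : Prop :=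
  ∀ a b, A a b = if b = τ a then α a else 0

lemma mono_one : Mono 1 (fun _ => 1) id := by
  intro a b
  rw [Matrix.one_apply]
  simp only [id, eq_comm]

lemma mono_R : Mono (Rm 7) (fun a => (sgZ a : ℂ)) id := by
  intro a b
  rw [Rm, Matrix.diagonal_apply]
  simp only [id, sgZ, eq_comm]
  push_cast
  rfl

lemma cZ_coef (a : Idx 7) : coef 7 ((a : ℕ) + 1) = (1 / 4 : ℂ) * (cZ a : ℂ) := by
  unfold coef cZ
  split_ifs
  · simp only [Int.cast_neg, Int.cast_natCast]; ring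
  · simp only [Int.cast_sub, Int.cast_natCast, Int.cast_ofNat, Nat.cast_ofNat]; ring

lemma mono_Fp : Mono (Fp 7) (fun a => (1 / 4 : ℂ) * (cZ a : ℂ)) (fun a => a + 1) := by
  intro a b
  simp only [Fp, Matrix.of_apply, ← cZ_coef]
  have h : ∀ a b : Idx 7, b = a + 1 ↔ ((b : ℕ) = (a : ℕ) + 1 ∨ ((a : ℕ) = 14 ∧ (b : ℕ) = 0)) := by
    decide +kernel
  by_cases h1 : (b : ℕ) = (a : ℕ) + 1
  · have h2 : b = a + 1 := (h a b).2 (Or.inl h1)
    rw [if_pos h1, if_pos h2, h1]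
  · rw [if_neg h1]
    by_cases h2 : b = a + 1
    · rw [if_pos h2]
      rcases (h a b).1 h2 with h3 | ⟨h3, _⟩
      · exact absurd h3 h1
      · rw [h3]
        exact (coef_last 7).symm
    · rw [if_neg h2]

lemma mono_Fm : Mono (Fm 7) (fun a => (eZ a : ℂ)) (fun a => a - 1) := by
  intro a b
  simp only [Fm, Matrix.of_apply, eZ]
  have h : ∀ a b : Idx 7, b = a - 1 ↔ ((a : ℕ) = (b : ℕ) + 1 ∨ (a = 0 ∧ (b : ℕ) = 14)) := by
    decide +kernel
  by_cases h1 : (a : ℕ) = (b : ℕ) + 1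
  · have h2 : b = a - 1 := (h a b).2 (Or.inl h1)
    have h3 : a ≠ 0 := by
      intro h0; rw [h0] at h1; simp at h1
    rw [if_pos h1, if_pos h2, if_neg h3]; simp
  · rw [if_neg h1]
    by_cases h2 : b = a - 1
    · rw [if_pos h2]
      rcases (h a b).1 h2 with h3 | ⟨h3, _⟩
      · exact absurd h3 h1
      · rw [if_pos h3]; simp
    · rw [if_neg h2]

lemma T3_mulVec {A B C : M1 7} {α β γ : Idx 7 → ℂ} {τ σ ρ : Idx 7 → Idx 7}
    (hA : Mono A α τ) (hB : Mono B β σ) (hC : Mono C γ ρ)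
    (v : Idx 7 × Idx 7 × Idx 7 → ℂ) (x : Idx 7 × Idx 7 × Idx 7) :
    (T3 A B C *ᵥ v) x = α x.1 * (β x.2.1 * γ x.2.2) * v (τ x.1, σ x.2.1, ρ x.2.2) := by
  rw [Matrix.mulVec, dotProduct, Finset.sum_eq_single (τ x.1, σ x.2.1, ρ x.2.2)]
  · rw [T3_apply, hA, hB, hC]; simp
  · rintro ⟨a, b, c⟩ _ hne
    rw [T3_apply, hA, hB, hC]
    by_cases h1 : a = τ x.1
    · by_cases h2 : b = σ x.2.1
      · by_cases h3 : c = ρ x.2.2
        · exact absurd (by rw [h1, h2, h3]) hne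
        · simp [h3]
      · simp [h2]
    · simp [h1]
  · simp

lemma fT_cs (i : Fin 3) (u : VZ) : fT 7 i *ᵥ cs u = (1 / 4 : ℂ) • cs (FZ i u) := by
  funext x
  fin_cases i
  · simp only [fT, Pi.smul_apply, smul_eq_mul]
    rw [T3_mulVec mono_Fp mono_R mono_R]
    simp [cs, FZ]; ring
  · simp only [fT, Pi.smul_apply, smul_eq_mul]
    rw [T3_mulVec mono_one mono_Fp mono_R]
    simp [cs, FZ]; ring
  · simp only [fT, Pi.smul_apply, smul_eq_mul]
    rw [T3_mulVec mono_one mono_one mono_Fp]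
    simp [cs, FZ]; ring

lemma gT_cs (i : Fin 3) (u : VZ) : gT 7 i *ᵥ cs u = cs (GZ i u) := by
  funext x
  fin_cases i
  · simp only [gT]
    rw [T3_mulVec mono_Fm mono_R mono_R]
    simp [cs, GZ]
  · simp only [gT]
    rw [T3_mulVec mono_one mono_Fm mono_R]
    simp [cs, GZ]
  · simp only [gT]
    rw [T3_mulVec mono_one mono_one mono_Fm]
    simp [cs, GZ]

lemma rT_cs (i : Fin 3) (u : VZ) : rT 7 i *ᵥ cs u = cs (RZ i u) := by
  funext x
  fin_cases i
  · simp only [rT]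
    rw [T3_mulVec mono_R mono_one mono_one]
    simp [cs, RZ]
  · simp only [rT]
    rw [T3_mulVec mono_one mono_R mono_one]
    simp [cs, RZ]
  · simp only [rT]
    rw [T3_mulVec mono_one mono_one mono_R]
    simp [cs, RZ]

/-- Table of the coordinates of the eigenvector. -/
def wtab : List (List ℤ) :=
  [[0, 21, 21, -21, -21, 21, 21, -21, -21, 21, 21, -21, -21, 21, 21],
   [-21, 18, 15, -12, -9, 6, 3, 0, 3, -6, -9, 12, 15, -18, -21],
   [-21, -3, 18, 6, -15, -9, 12, 12, -9, -15, 6, 18, -3, -21, 0],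
   [7, -6, -12, 10, 15, -12, -16, 12, 15, -10, -12, 6, 7, 0, 0]]

/-- Coordinates of a common eigenvector of `X` and `ω`. -/
def wZ : VZ := fun a b c =>
  if (a : ℕ) + (b : ℕ) + (c : ℕ) = 15 then (wtab.getD (c : ℕ) []).getD (a : ℕ) 0 else 0

def U12Z (u : VZ) : VZ := FZ 0 (GZ 1 u) + FZ 1 (GZ 0 u)
def U23Z (u : VZ) : VZ := FZ 1 (GZ 2 u) + FZ 2 (GZ 1 u)
def U13Z (u : VZ) : VZ := FZ 0 (GZ 2 u) + FZ 2 (GZ 0 u)

lemma check12 : ∀ a b c : Idx 7,
    15 * RZ 0 (RZ 0 (RZ 1 wZ)) a b c + 15 * RZ 1 (RZ 0 (RZ 1 wZ)) a b c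
      - RZ 0 (RZ 1 wZ) a b c + 4 * U12Z (RZ 0 (RZ 1 wZ)) a b c = 5 * wZ a b c := by
  decide +kernel

lemma check4 : ∀ a b c : Idx 7,
    15 * RZ 0 (RZ 0 (RZ 1 (RZ 2 wZ))) a b c + 15 * RZ 1 (RZ 0 (RZ 1 (RZ 2 wZ))) a b c
      + 15 * RZ 2 (RZ 0 (RZ 1 (RZ 2 wZ))) a b c
      - 2 * RZ 0 (RZ 1 (RZ 2 wZ)) a b c + 4 * U12Z (RZ 0 (RZ 1 (RZ 2 wZ))) a b c
      + 4 * U23Z (RZ 0 (RZ 1 (RZ 2 wZ))) a b c
      + 4 * U13Z (RZ 0 (RZ 1 (RZ 2 wZ))) a b c = -13 * wZ a b c := by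
  decide +kernel

lemma h15 (x : M3 7) : 15 * x = (15 : ℂ) • x := by
  rw [Algebra.smul_def, map_ofNat]

lemma h16 (x : M3 7) : 16 * x = (16 : ℂ) • x := by
  rw [Algebra.smul_def, map_ofNat]

lemma h2one : (2 : M3 7) = (2 : ℂ) • (1 : M3 7) := by
  rw [Algebra.smul_def, map_ofNat, mul_one]

lemma eig12 : ((8 : ℂ) • Q12 7) *ᵥ cs wZ = (5 : ℂ) • cs wZ := by
  rw [pairA triple, triple.pair 0 1 (by decide), ← Matrix.mulVec_mulVec,
    ← Matrix.mulVec_mulVec, rT_cs, rT_cs, h15, h15, h16]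
  simp only [Matrix.add_mulVec, Matrix.sub_mulVec, Matrix.smul_mulVec, Matrix.one_mulVec,
    ← Matrix.mulVec_mulVec, rT_cs, gT_cs, fT_cs]
  funext x
  have h := congrArg (fun z : ℤ => (z : ℂ)) (check12 x.1 x.2.1 x.2.2)
  simp only [U12Z, Pi.add_apply] at h
  push_cast at h
  simp only [Pi.add_apply, Pi.sub_apply, Pi.smul_apply, smul_eq_mul, cs]
  linear_combination h

lemma eig4 : ((8 : ℂ) • Q4 7) *ᵥ cs wZ = (-13 : ℂ) • cs wZ := by
  rw [allQ, triple.all, ← Matrix.mulVec_mulVec, ← Matrix.mulVec_mulVec,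
    ← Matrix.mulVec_mulVec, rT_cs, rT_cs, rT_cs, h15, h15, h15, h16, h16, h16, h2one]
  simp only [Matrix.add_mulVec, Matrix.sub_mulVec, Matrix.smul_mulVec, Matrix.one_mulVec,
    ← Matrix.mulVec_mulVec, rT_cs, gT_cs, fT_cs]
  funext x
  have h := congrArg (fun z : ℤ => (z : ℂ)) (check4 x.1 x.2.1 x.2.2)
  simp only [U12Z, U23Z, U13Z, Pi.add_apply] at h
  push_cast at h
  simp only [Pi.add_apply, Pi.sub_apply, Pi.smul_apply, smul_eq_mul, cs]
  linear_combination h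

lemma cs_ne : cs wZ ≠ 0 := by
  intro h
  have h1 := congrFun h ((0 : Idx 7), (12 : Idx 7), (3 : Idx 7))
  have h2 : wZ 0 12 3 = 7 := by decide +kernel
  simp only [cs, h2, Pi.zero_apply] at h1
  norm_num at h1

lemma eigX : img 7 .X *ᵥ cs wZ = (-2 : ℂ) • cs wZ := by
  have h : img 7 .X = (-1 / 2 : ℂ) • ((8 : ℂ) • Q12 7) + (1 / 2 : ℂ) • 1 := by
    simp only [img, smul_smul]; norm_num
  rw [h, Matrix.add_mulVec, Matrix.smul_mulVec, eig12, Matrix.smul_mulVec, Matrix.one_mulVec,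
    smul_smul, ← add_smul]
  norm_num

lemma eigOm : img 7 .wX *ᵥ cs wZ = (14 : ℂ) • cs wZ := by
  have h : img 7 .wX = (15 / 2 : ℂ) • ((8 : ℂ) • Q4 7) + (223 / 2 : ℂ) • 1 := by
    rw [om_eq .wX (Or.inl rfl), smul_smul]; norm_num
  rw [h, Matrix.add_mulVec, Matrix.smul_mulVec, eig4, Matrix.smul_mulVec, Matrix.one_mulVec,
    smul_smul, ← add_smul]
  norm_num

lemma aeval_mulVec (A : M3 7) (w : Idx 7 × Idx 7 × Idx 7 → ℂ) (c : ℂ) (h : A *ᵥ w = c • w)
    (p : Polynomial ℂ) : (Polynomial.aeval A p) *ᵥ w = (p.eval c) • w := by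
  induction p using Polynomial.induction_on with
  | C a => rw [Polynomial.aeval_C, Polynomial.eval_C, Algebra.algebraMap_eq_smul_one,
      Matrix.smul_mulVec, Matrix.one_mulVec]
  | add p q hp hq => rw [map_add, Matrix.add_mulVec, hp, hq, Polynomial.eval_add, add_smul]
  | monomial n a ih =>
    rw [pow_succ, ← mul_assoc, map_mul, Polynomial.aeval_X,
      ← Matrix.mulVec_mulVec, h, Matrix.mulVec_smul, ih, smul_smul]
    congr 1
    simp only [Polynomial.eval_mul, Polynomial.eval_X, Polynomial.eval_C, Polynomial.eval_pow]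
    ring

/-- `-16` is an eigenvalue of `X - ω`, so it must belong to `M`. -/
lemma mem_of_iso (M : Finset ℂ) (h : Iso 7 M) : (-16 : ℂ) ∈ M := by
  obtain ⟨Ψ, hg, -, -⟩ := h
  by_contra hM
  set p : Polynomial ℂ := ∏ m ∈ M, (Polynomial.X - Polynomial.C m) with hp
  have h1 : Polynomial.aeval (img 7 .X - img 7 .wX) p = 0 := by
    have h2 := RingQuot.mkAlgHom_rel ℂ (Rel.third (n := 7) (M := M) .X (Or.inl rfl))
    have h3 := congrArg Ψ h2
    rw [← Polynomial.aeval_algHom_apply, ← Polynomial.aeval_algHom_apply, map_sub, map_sub,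
      hg, hg, map_zero, map_zero] at h3
    exact h3
  have h4 : (img 7 .X - img 7 .wX) *ᵥ cs wZ = (-16 : ℂ) • cs wZ := by
    rw [Matrix.sub_mulVec, eigX, eigOm, ← sub_smul]; norm_num
  have h5 := aeval_mulVec _ _ _ h4 p
  rw [h1, Matrix.zero_mulVec] at h5
  have h6 : p.eval (-16) ≠ 0 := by
    rw [hp, Polynomial.eval_prod]
    refine Finset.prod_ne_zero_iff.2 fun m hm => ?_
    simp only [Polynomial.eval_sub, Polynomial.eval_X, Polynomial.eval_C]
    intro h0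
    exact hM ((sub_eq_zero.1 h0) ▸ hm)
  rcases smul_eq_zero.1 h5.symm with h7 | h7
  · exact h6 h7
  · exact cs_ne h7

/-- The values of the extra one-dimensional representation. -/
noncomputable def chiGen : Gen → ℂ
  | .X => -2
  | .Y => -2
  | .Z => -2
  | _ => 14

/-- The extra one-dimensional representation, on the free algebra. -/
noncomputable def chi0 : Free →ₐ[ℂ] ℂ := FreeAlgebra.lift ℂ chiGen

lemma chi0_gen (g : Gen) : chi0 (gen g) = chiGen g := FreeAlgebra.lift_ι_apply chiGen g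

lemma chi0_rel (M : Finset ℂ) (hM : (-16 : ℂ) ∈ M) ⦃x y : Free⦄ (h : Rel 7 M x y) :
    chi0 x = chi0 y := by
  cases h with
  | central w g hw => rw [map_mul, map_mul, mul_comm]
  | xy => simp only [map_add, map_mul, chi0_gen, chiGen]; norm_num
  | xz => simp only [map_add, map_mul, chi0_gen, chiGen]; norm_num
  | yz => simp only [map_add, map_mul, chi0_gen, chiGen]; norm_num
  | omXY => simp only [chi0_gen, chiGen]
  | omYZ => simp only [chi0_gen, chiGen]
  | first W hW =>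
    rw [← Polynomial.aeval_algHom_apply, chi0_gen, map_zero]
    have : chiGen W = -2 := by rcases hW with h | h | h <;> rw [h] <;> rfl
    rw [this, Polynomial.coe_aeval_eq_eval, Polynomial.eval_prod]
    refine Finset.prod_eq_zero (i := 6) (by simp) ?_
    simp only [Polynomial.eval_sub, Polynomial.eval_X, Polynomial.eval_C]
    norm_num
  | second =>
    rw [← Polynomial.aeval_algHom_apply, chi0_gen, map_zero]
    rw [Polynomial.coe_aeval_eq_eval, Polynomial.eval_prod]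
    refine Finset.prod_eq_zero (i := 14) (by simp) ?_
    simp only [Polynomial.eval_sub, Polynomial.eval_X, Polynomial.eval_C, chiGen]
    norm_num
  | third W hW =>
    rw [← Polynomial.aeval_algHom_apply, map_sub, chi0_gen, chi0_gen, map_zero]
    have : chiGen W = -2 := by rcases hW with h | h | h <;> rw [h] <;> rfl
    rw [this, Polynomial.coe_aeval_eq_eval, Polynomial.eval_prod]
    refine Finset.prod_eq_zero hM ?_
    simp only [Polynomial.eval_sub, Polynomial.eval_X, Polynomial.eval_C, chiGen]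
    norm_num

/-- The Casimir relation, as an element of the free algebra. -/
noncomputable def casEl : Free :=
  225 * ((1 - 2 * gen .X) * (1 - 2 * gen .X) + (1 - 2 * gen .Y) * (1 - 2 * gen .Y)
    + (1 - 2 * gen .Z) * (1 - 2 * gen .Z) - 674)
    - (2 * gen .wX - 223) * (2 * gen .wX - 223)

/-- For `j = 7/2` (`n = 7`) and for every finite set `M` in the place of `M_j`, the map
`(π_j ⊗ π_j ⊗ π_j) ∘ Φ` does not induce an isomorphism of the quotient of `I_3` onto `C_j`. -/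
theorem result : ∀ M : Finset ℂ, ¬ Iso 7 M := by
  intro M h
  have hM := mem_of_iso M h
  obtain ⟨Ψ, hg, hinj, -⟩ := h
  -- the Casimir element is zero in the quotient
  have h1 : Ψ (RingQuot.mkAlgHom ℂ (Rel 7 M) casEl) = 0 := by
    have hX : ∀ q : M3 7, 1 - 2 * ((-4 : ℂ) • q + (1 / 2 : ℂ) • 1) = (8 : ℂ) • q := by
      intro q
      have : ∀ x : M3 7, 2 * x = (2 : ℂ) • x := by
        intro x; rw [Algebra.smul_def, map_ofNat]
      rw [this, smul_add, smul_smul, smul_smul]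
      norm_num
    have hW : 2 * img 7 .wX - 223 = (15 : ℂ) • ((8 : ℂ) • Q4 7) := by
      have h2 : ∀ x : M3 7, 2 * x = (2 : ℂ) • x := by
        intro x; rw [Algebra.smul_def, map_ofNat]
      have h3 : (223 : M3 7) = (223 : ℂ) • 1 := by
        rw [Algebra.smul_def, map_ofNat, mul_one]
      rw [om_eq .wX (Or.inl rfl), h2, smul_add, smul_smul, smul_smul, smul_smul, h3]
      norm_num
    simp only [casEl, map_sub, map_mul, map_add, map_one, map_ofNat, hg]
    rw [hW]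
    simp only [img, hX]
    rw [casimir7]
    have h225 : ∀ x : M3 7, 225 * x = (225 : ℂ) • x := by
      intro x; rw [Algebra.smul_def, map_ofNat]
    rw [h225, smul_mul_assoc (15 : ℂ), mul_smul_comm (15 : ℂ), smul_smul, add_sub_cancel_left]
    norm_num
  have h2 : RingQuot.mkAlgHom ℂ (Rel 7 M) casEl = 0 := hinj (by rw [h1, map_zero])
  -- but the extra representation does not kill it
  let χ : Ibar 7 M →ₐ[ℂ] ℂ := RingQuot.liftAlgHom ℂ ⟨chi0, chi0_rel M hM⟩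
  have h3 : χ (RingQuot.mkAlgHom ℂ (Rel 7 M) casEl) = chi0 casEl :=
    RingQuot.liftAlgHom_mkAlgHom_apply ℂ chi0 (chi0_rel M hM) casEl
  rw [h2, map_zero] at h3
  simp only [casEl, map_sub, map_mul, map_add, map_one, map_ofNat, chi0_gen, chiGen] at h3
  norm_num at h3

end Pool.Agent.Results.MP_56b3f5_al.CentralizerFails
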